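import Mathlib
import Pool.Agent.V11219.CompFunctor

/-!
A mec functor in the category of compacta that preserves finite preimages preserves all preimages.
-/

namespace Pool.Agent.Results.MP_6bfe6b_gt.FinitePreimages

open CategoryTheory Topology Set Pool.Agent.V11219.CompFunctor

universe u

/-- `F` sends bicommutative squares with injective `f`, `f'` to bicommutative squares. -/
def PreservesPreimages (F : CompHaus.{u} ⥤ CompHaus.{u}) : Prop :=
  ∀ ⦃X' Y' X Y : CompHaus.{u}⦄ (f' : X' ⟶ Y') (f : X ⟶ Y) (pX : X' ⟶ X) (pY : Y' ⟶ Y),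
    Function.Injective f' → Function.Injective f → Bicommutative f' f pX pY →
      Bicommutative (F.map f') (F.map f) (F.map pX) (F.map pY)

/-- `F` sends bicommutative squares with injective `f`, `f'` and finite `X` to bicommutative
squares. -/
def PreservesFinitePreimages (F : CompHaus.{u} ⥤ CompHaus.{u}) : Prop :=
  ∀ ⦃X' Y' X Y : CompHaus.{u}⦄ (f' : X' ⟶ Y') (f : X ⟶ Y) (pX : X' ⟶ X) (pY : Y' ⟶ Y),
    Finite X → Function.Injective f' → Function.Injective f → Bicommutative f' f pX pY →
      Bicommutative (F.map f') (F.map f) (F.map pX) (F.map pY)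

lemma exists_function (Y : Type u) [TopologicalSpace Y] [CompactSpace Y] [T2Space Y] (Z : Set Y)
    (hZ : IsClosed Z) (y : Y) (hy : y ∉ Z) :
    ∃ g : C(Y, unitInterval), (∀ z ∈ Z, g z = 0) ∧ g y ≠ 0 := by
  obtain ⟨g, hg0, hg1, hg⟩ := exists_continuous_zero_one_of_isClosed hZ
    (isClosed_singleton (x := y)) (Set.disjoint_singleton_right.2 hy)
  refine ⟨⟨fun y => ⟨g y, hg y⟩, g.continuous.subtype_mk _⟩, fun z hz => Subtype.ext (hg0 hz),
    fun h => ?_⟩
  have h2 : g y = 0 := congrArg Subtype.val h
  rw [hg1 rfl] at h2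
  exact one_ne_zero h2

/-- The space `Y / Z` (as a subspace of a cube). -/
lemma exists_collapse (Y : CompHaus.{u}) (Z : Set Y) (hZ : IsClosed Z) :
    ∃ (Q : CompHaus.{u}) (q : Y ⟶ Q) (z : Q), ∀ y, q y = z ↔ y ∈ Z := by
  let C : Type u := {g : C(Y, unitInterval) // ∀ y ∈ Z, g y = 0}
  let Q : CompHaus.{u} := CompHaus.of (C → unitInterval)
  let q : Y ⟶ Q := CompHausLike.ofHom _
    ⟨fun y g => g.1 y, continuous_pi fun g => g.1.continuous⟩
  refine ⟨Q, q, (fun _ => 0 : C → unitInterval), fun y => ⟨fun h => ?_, fun h => ?_⟩⟩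
  · by_contra hy
    obtain ⟨g, hg0, hg1⟩ := exists_function Y Z hZ y hy
    exact hg1 (congrFun h (⟨g, hg0⟩ : C))
  · show (fun g : C => g.1 y) = fun _ => 0
    funext g
    exact g.2 y h

/-- **Every mec functor (in fact every monomorphic functor) in the category of compacta that
preserves finite preimages preserves preimages.** -/
theorem result (F : CompHaus.{u} ⥤ CompHaus.{u}) (hmono : Monomorphic F) (_ : Epimorphic F)
    (_ : ContinuousFunctor F) (hF : PreservesFinitePreimages F) : PreservesPreimages F := by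
  intro X' Y' X Y f' f pX pY hf' hf hsq
  by_cases hX : IsEmpty X
  · exact hF f' f pX pY inferInstance hf' hf hsq
  have hXne : Nonempty X := not_isEmpty_iff.1 hX
  obtain ⟨Q, q, z, hq⟩ := exists_collapse Y (range f) (isCompact_range f.hom.hom.continuous).isClosed
  let one : CompHaus.{u} := CompHaus.of PUnit.{u + 1}
  let z' : one ⟶ Q := CompHausLike.ofHom _ ⟨fun _ => z, continuous_const⟩
  let t' : X' ⟶ one := CompHausLike.ofHom _ ⟨fun _ => PUnit.unit, continuous_const⟩
  let t : X ⟶ one := CompHausLike.ofHom _ ⟨fun _ => PUnit.unit, continuous_const⟩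
  -- the collapsed square
  have hsq' : Bicommutative f' z' t' (pY ≫ q) := by
    constructor
    · intro x
      show z = q (pY (f' x))
      rw [← hsq.1 x]
      exact ((hq _).2 (mem_range_self _)).symm
    · rintro ⟨⟩
      ext y
      constructor
      · rintro ⟨x, -, rfl⟩
        show q (pY (f' x)) = z
        rw [← hsq.1 x]
        exact (hq _).2 (mem_range_self _)
      · intro hy
        have hy' : q (pY y) = z := hy
        obtain ⟨x, hx⟩ := (hq _).1 hy'
        have h1 : y ∈ pY ⁻¹' {f x} := hx.symm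
        rw [← hsq.2 x] at h1
        obtain ⟨x', -, hx'⟩ := h1
        exact ⟨x', rfl, hx'⟩
  have hz' : Function.Injective z' := fun _ _ _ => rfl
  have h := hF f' z' t' (pY ≫ q) (inferInstanceAs (Finite PUnit)) hf' hz' hsq'
  have hcomm : ∀ x, F.map f (F.map pX x) = F.map pY (F.map f' x) := by
    intro x
    have h1 : pX ≫ f = f' ≫ pY := by
      ext x
      exact hsq.1 x
    have h2 : (F.map (pX ≫ f)) x = (F.map (f' ≫ pY)) x := by rw [h1]
    rw [F.map_comp, F.map_comp] at h2
    exact h2
  refine ⟨hcomm, fun a => ?_⟩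
  ext b
  constructor
  · rintro ⟨a', ha', rfl⟩
    have h1 : F.map pX a' = a := ha'
    show F.map pY (F.map f' a') = F.map f a
    rw [← hcomm, h1]
  · intro hb
    have hb' : F.map pY b = F.map f a := hb
    have h1 : F.map (pY ≫ q) b = F.map z' (F.map t a) := by
      have h2 : f ≫ q = t ≫ z' := by
        ext x
        exact (hq _).2 (mem_range_self _)
      have h3 : F.map (f ≫ q) a = F.map (t ≫ z') a := by rw [h2]
      rw [F.map_comp, F.map_comp] at h3
      rw [F.map_comp]
      show F.map q (F.map pY b) = _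
      rw [hb']
      exact h3
    have h4 : b ∈ F.map (pY ≫ q) ⁻¹' {F.map z' (F.map t a)} := h1
    rw [← h.2] at h4
    obtain ⟨a', -, rfl⟩ := h4
    refine ⟨a', ?_, rfl⟩
    exact hmono f hf (by rw [hcomm]; exact hb')

end Pool.Agent.Results.MP_6bfe6b_gt.FinitePreimages
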