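import Mathlib
import Pool.Agent.V11219.CompThread

/-!
A mec functor in the category of compacta that preserves finite 1-preimages but does not preserve
1-preimages.
-/

namespace Pool.Agent.Results.MP_6bfe6b_gt.OnePreimages

open CategoryTheory Topology Set TopologicalSpace Pool.Agent.V11219.CompFunctor

universe u

/-- `F` sends bicommutative squares with injective `f`, `f'` and bijective `pX` to bicommutative
squares. -/
def PreservesOnePreimages (F : CompHaus.{u} ⥤ CompHaus.{u}) : Prop :=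
  ∀ ⦃X' Y' X Y : CompHaus.{u}⦄ (f' : X' ⟶ Y') (f : X ⟶ Y) (pX : X' ⟶ X) (pY : Y' ⟶ Y),
    Function.Bijective pX → Function.Injective f' → Function.Injective f →
      Bicommutative f' f pX pY → Bicommutative (F.map f') (F.map f) (F.map pX) (F.map pY)

/-- `F` sends bicommutative squares with injective `f`, `f'`, bijective `pX` and finite `X` to
bicommutative squares. -/
def PreservesFiniteOnePreimages (F : CompHaus.{u} ⥤ CompHaus.{u}) : Prop :=
  ∀ ⦃X' Y' X Y : CompHaus.{u}⦄ (f' : X' ⟶ Y') (f : X ⟶ Y) (pX : X' ⟶ X) (pY : Y' ⟶ Y),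
    Finite X → Function.Bijective pX → Function.Injective f' → Function.Injective f →
      Bicommutative f' f pX pY → Bicommutative (F.map f') (F.map f) (F.map pX) (F.map pY)

/-! ### The functor -/

section rel

variable {X Y : Type u} [TopologicalSpace X] [TopologicalSpace Y]

/-- The relation on `exp X × X × X`: nothing is identified over a disconnected set, the diagonal
is collapsed over a connected set, everything is identified over a singleton. -/
def rel (p q : Compacts X × X × X) : Prop :=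
  p.1 = q.1 ∧ (p.2 = q.2 ∨ (p.1 : Set X).Subsingleton ∨
    (_root_.IsPreconnected (p.1 : Set X) ∧ p.2.1 = p.2.2 ∧ q.2.1 = q.2.2))

lemma rel_refl (p : Compacts X × X × X) : rel p p := ⟨rfl, Or.inl rfl⟩

lemma rel_symm {p q : Compacts X × X × X} (h : rel p q) : rel q p := by
  obtain ⟨h1, h2⟩ := h
  refine ⟨h1.symm, ?_⟩
  rcases h2 with h | h | ⟨h, h', h''⟩
  · exact Or.inl h.symm
  · exact Or.inr (Or.inl (h1 ▸ h))
  · exact Or.inr (Or.inr ⟨h1 ▸ h, h'', h'⟩)

lemma rel_trans {p q r : Compacts X × X × X} (h : rel p q) (h' : rel q r) : rel p r := by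
  obtain ⟨h1, h2⟩ := h
  obtain ⟨h3, h4⟩ := h'
  refine ⟨h1.trans h3, ?_⟩
  rcases h2 with h | h | ⟨h, ha, hb⟩
  · rcases h4 with h' | h' | ⟨h', ha', hb'⟩
    · exact Or.inl (h.trans h')
    · exact Or.inr (Or.inl (h1 ▸ h'))
    · refine Or.inr (Or.inr ⟨h1 ▸ h', ?_, hb'⟩)
      rw [h]
      exact ha'
  · exact Or.inr (Or.inl h)
  · rcases h4 with h' | h' | ⟨h', ha', hb'⟩
    · refine Or.inr (Or.inr ⟨h, ha, ?_⟩)
      rw [← h']
      exact hb
    · exact Or.inr (Or.inl (h1 ▸ h'))
    · exact Or.inr (Or.inr ⟨h, ha, hb'⟩)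

variable (X) in
/-- The equivalence relation. -/
def stp : Setoid (Compacts X × X × X) where
  r := rel
  iseqv := ⟨rel_refl, rel_symm, rel_trans⟩

lemma isClosed_rel [T2Space X] :
    IsClosed {p : (Compacts X × X × X) × (Compacts X × X × X) | stp X p.1 p.2} := by
  have h1 : {p : (Compacts X × X × X) × (Compacts X × X × X) | stp X p.1 p.2} =
      {p | p.1.1 = p.2.1} ∩ ({p | p.1.2 = p.2.2} ∪
        ((fun p : (Compacts X × X × X) × (Compacts X × X × X) => p.1.1) ⁻¹'
            {K : Compacts X | (K : Set X).Subsingleton} ∪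
          (((fun p : (Compacts X × X × X) × (Compacts X × X × X) => p.1.1) ⁻¹'
            {K : Compacts X | _root_.IsPreconnected (K : Set X)}) ∩
            ({p | p.1.2.1 = p.1.2.2} ∩ {p | p.2.2.1 = p.2.2.2})))) := rfl
  rw [h1]
  have hc1 : Continuous fun p : (Compacts X × X × X) × (Compacts X × X × X) => p.1.1 := by
    fun_prop
  refine (isClosed_eq hc1 (by fun_prop)).inter ((isClosed_eq (by fun_prop) (by fun_prop)).union
    (((isClosed_subsingleton X).preimage hc1).union (((isClosed_preconnected X).preimage hc1).inter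
      ((isClosed_eq (by fun_prop) (by fun_prop)).inter (isClosed_eq (by fun_prop) (by fun_prop))))))

/-- The map of `exp X × X × X` induced by a map of `X`. -/
def gmap (f : X → Y) (hf : Continuous f) (p : Compacts X × X × X) : Compacts Y × Y × Y :=
  (p.1.map f hf, f p.2.1, f p.2.2)

lemma continuous_gmap (f : X → Y) (hf : Continuous f) : Continuous (gmap f hf) := by
  refine Continuous.prodMk ?_ (Continuous.prodMk ?_ ?_)
  · exact hf.compacts_map.comp continuous_fst
  · exact hf.comp (continuous_fst.comp continuous_snd)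
  · exact hf.comp (continuous_snd.comp continuous_snd)

lemma rel_gmap (f : X → Y) (hf : Continuous f) {p q : Compacts X × X × X} (h : rel p q) :
    rel (gmap f hf p) (gmap f hf q) := by
  obtain ⟨h1, h2⟩ := h
  refine ⟨?_, ?_⟩
  · show p.1.map f hf = q.1.map f hf
    rw [h1]
  · rcases h2 with h | h | ⟨h, ha, hb⟩
    · refine Or.inl ?_
      show (f p.2.1, f p.2.2) = (f q.2.1, f q.2.2)
      rw [h]
    · exact Or.inr (Or.inl (h.image f))
    · refine Or.inr (Or.inr ⟨h.image f hf.continuousOn, ?_, ?_⟩)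
      · show f p.2.1 = f p.2.2
        rw [ha]
      · show f q.2.1 = f q.2.2
        rw [hb]

instance [CompactSpace X] [T2Space X] : T2Space (Quotient (stp X)) :=
  t2Space_quotient _ isClosed_rel

end rel

/-- The functor. -/
def E : CompHaus.{u} ⥤ CompHaus.{u} where
  obj X := CompHaus.of (Quotient (stp X))
  map {X Y} f := CompHausLike.ofHom _
    ⟨Quotient.map (gmap f (continuous_hom f)) fun _ _ h => rel_gmap _ _ h,
      (continuous_gmap _ _).quotient_map' _⟩
  map_id X := by
    ext p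
    induction p using Quotient.inductionOn with
    | h p => ?_
    show Quotient.mk (stp X) (p.1.map id _, p.2.1, p.2.2) = Quotient.mk (stp X) p
    rw [Compacts.map_id]
  map_comp {X Y Z} f g := by
    ext p
    induction p using Quotient.inductionOn with
    | h p => ?_
    show Quotient.mk (stp Z) (p.1.map (g ∘ f) ((continuous_hom g).comp (continuous_hom f)),
        g (f p.2.1), g (f p.2.2)) =
      Quotient.mk (stp Z) ((p.1.map f (continuous_hom f)).map g (continuous_hom g),
        g (f p.2.1), g (f p.2.2))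
    rw [Compacts.map_comp]

/-- The class of `p` in `E X`. -/
def mk {X : CompHaus.{u}} (p : Compacts X × X × X) : E.obj X := Quotient.mk (stp X) p

lemma mk_eq {X : CompHaus.{u}} {p q : Compacts X × X × X} : mk p = mk q ↔ rel p q :=
  ⟨fun h => Quotient.exact h, fun h => Quotient.sound h⟩

lemma exists_mk {X : CompHaus.{u}} (x : E.obj X) : ∃ p, mk p = x := Quotient.exists_rep x

lemma map_mk {X Y : CompHaus.{u}} (f : X ⟶ Y) (p : Compacts X × X × X) :
    E.map f (mk p) = mk (gmap f (continuous_hom f) p) := rfl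

/-! ### Simple properties of the functor -/

lemma isClosedEmbedding {X Y : CompHaus.{u}} (f : X ⟶ Y) (hf : Function.Injective f) :
    IsClosedEmbedding f :=
  (continuous_hom f).isClosedEmbedding hf

lemma monomorphic : Monomorphic E.{u} := by
  intro X Y f hf x y hxy
  obtain ⟨p, rfl⟩ := exists_mk x
  obtain ⟨q, rfl⟩ := exists_mk y
  rw [map_mk, map_mk, mk_eq] at hxy
  rw [mk_eq]
  obtain ⟨h1, h2⟩ := hxy
  refine ⟨Compacts.map_injective (continuous_hom f) hf h1, ?_⟩
  rcases h2 with h | h | ⟨h, ha, hb⟩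
  · have h' : (f p.2.1, f p.2.2) = (f q.2.1, f q.2.2) := h
    rw [Prod.mk.injEq] at h'
    exact Or.inl (Prod.ext (hf h'.1) (hf h'.2))
  · exact Or.inr (Or.inl (hf.subsingleton_image_iff.1 h))
  · exact Or.inr (Or.inr ⟨(isClosedEmbedding f hf).isInducing.isPreconnected_image.1 h,
      hf ha, hf hb⟩)

/-- The preimage of a compact set. -/
def comapc {X Y : CompHaus.{u}} (f : X ⟶ Y) (K : Compacts Y) : Compacts X :=
  ⟨f ⁻¹' K, (K.isCompact.isClosed.preimage (continuous_hom f)).isCompact⟩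

lemma map_comapc {X Y : CompHaus.{u}} (f : X ⟶ Y) (K : Compacts Y) (h : (K : Set Y) ⊆ range f) :
    (comapc f K).map f (continuous_hom f) = K :=
  Compacts.ext (image_preimage_eq_of_subset h)

lemma epimorphic : Epimorphic E.{u} := by
  intro X Y f hf y
  obtain ⟨⟨K, y1, y2⟩, rfl⟩ := exists_mk y
  obtain ⟨x1, rfl⟩ := hf y1
  obtain ⟨x2, rfl⟩ := hf y2
  refine ⟨mk (comapc f K, x1, x2), ?_⟩
  rw [map_mk]
  show mk ((comapc f K).map f _, f x1, f x2) = _
  rw [map_comapc f K (by rw [hf.range_eq]; exact subset_univ _)]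

/-! ### Continuity -/

lemma isClosed_pt {X : CompHaus.{u}} (x : X) : IsClosed ({x} : Set X) :=
  (isCompact_singleton (x := x)).isClosed

section cont

variable {J : Type u} [PartialOrder J] [IsDirectedOrder J] [Nonempty J]
  {D : Jᵒᵖ ⥤ CompHaus.{u}} {c : Limits.Cone D}

/-- The limit projections. -/
def pr (c : Limits.Cone D) (j : Jᵒᵖ) : c.pt ⟶ D.obj j := c.π.app j

omit [IsDirectedOrder J] [Nonempty J] in
lemma cone_map {i j : Jᵒᵖ} (f : i ⟶ j) (x : c.pt) : D.map f (pr c i x) = pr c j x := by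
  have h := c.π.naturality f
  have h1 : pr c i ≫ D.map f = pr c j := by
    show c.π.app i ≫ D.map f = c.π.app j
    rw [← h]
    simp
  exact ConcreteCategory.congr_hom h1 x

omit [Nonempty J] in
lemma exists_above (i j : Jᵒᵖ) : ∃ k : Jᵒᵖ, Nonempty (k ⟶ i) ∧ Nonempty (k ⟶ j) := by
  obtain ⟨k, hik, hjk⟩ := exists_ge_ge i.unop j.unop
  exact ⟨Opposite.op k, ⟨(homOfLE hik).op⟩, ⟨(homOfLE hjk).op⟩⟩

/-- Two points of closed sets which are not separated at any level. -/
lemma exists_common (A B : Set c.pt) (hA : IsClosed A) (hB : IsClosed B)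
    (h : ∀ j, ∃ a ∈ A, ∃ b ∈ B, pr c j a = pr c j b) :
    ∃ a ∈ A, ∃ b ∈ B, ∀ j, pr c j a = pr c j b := by
  have h1 : (⋂ j : Jᵒᵖ, {p : c.pt × c.pt | (p.1 ∈ A ∧ p.2 ∈ B) ∧
      pr c j p.1 = pr c j p.2}).Nonempty := by
    have hcl : ∀ j : Jᵒᵖ, IsClosed {p : c.pt × c.pt | (p.1 ∈ A ∧ p.2 ∈ B) ∧
        pr c j p.1 = pr c j p.2} := fun j =>
      ((hA.preimage continuous_fst).inter (hB.preimage continuous_snd)).inter
        (isClosed_eq ((continuous_hom _).comp continuous_fst)
          ((continuous_hom _).comp continuous_snd))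
    refine IsCompact.nonempty_iInter_of_directed_nonempty_isCompact_isClosed _ ?_ ?_
      (fun j => (hcl j).isCompact) hcl
    · intro i j
      obtain ⟨k, ⟨f⟩, ⟨g⟩⟩ := exists_above i j
      refine ⟨k, ?_, ?_⟩
      · rintro p ⟨hp, hp'⟩
        refine ⟨hp, ?_⟩
        have hp'' : pr c k p.1 = pr c k p.2 := hp'
        show pr c i p.1 = pr c i p.2
        rw [← cone_map f, ← cone_map f, hp'']
      · rintro p ⟨hp, hp'⟩
        refine ⟨hp, ?_⟩
        have hp'' : pr c k p.1 = pr c k p.2 := hp'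
        show pr c j p.1 = pr c j p.2
        rw [← cone_map g, ← cone_map g, hp'']
    · intro j
      obtain ⟨a, ha, b, hb, hab⟩ := h j
      exact ⟨(a, b), ⟨ha, hb⟩, hab⟩
  obtain ⟨⟨a, b⟩, hab⟩ := h1
  rw [mem_iInter] at hab
  obtain ⟨j0⟩ := (inferInstance : Nonempty J)
  exact ⟨a, (hab (Opposite.op j0)).1.1, b, (hab (Opposite.op j0)).1.2, fun j => (hab j).2⟩

/-- The points of `c.pt` are the threads of the spectrum. -/
def IsThreads (c : Limits.Cone D) : Prop :=
  ∀ s : (j : Jᵒᵖ) → D.obj j,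
    (∀ ⦃i j : Jᵒᵖ⦄ (f : i ⟶ j), D.map f (s i) = s j) → ∃! x : c.pt, ∀ j, pr c j x = s j

omit [IsDirectedOrder J] [Nonempty J] in
lemma eq_of_forall (hc : IsThreads c) {x y : c.pt} (h : ∀ j, pr c j x = pr c j y) : x = y :=
  (hc (fun j => pr c j y) (fun _ _ f => cone_map f y)).unique h (fun _ => rfl)

omit [IsDirectedOrder J] [Nonempty J] in
lemma exists_ne (hc : IsThreads c) {x y : c.pt} (h : x ≠ y) :
    ∃ j, ∀ k, Nonempty (k ⟶ j) → pr c k x ≠ pr c k y := by
  by_contra hcon
  push Not at hcon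
  refine h (eq_of_forall hc fun j => ?_)
  obtain ⟨k, ⟨f⟩, hk⟩ := hcon j
  rw [← cone_map f, ← cone_map f, hk]

lemma subset_of_forall (hc : IsThreads c) {K L : Compacts c.pt}
    (h : ∀ j, (pr c j) '' (K : Set c.pt) ⊆ (pr c j) '' (L : Set c.pt)) :
    (K : Set c.pt) ⊆ L := by
  intro x hx
  obtain ⟨a, ha, b, hb, hab⟩ := exists_common (c := c) {x} L isClosed_singleton L.isCompact.isClosed
    fun j => by
      obtain ⟨b, hb, hbx⟩ := h j (mem_image_of_mem _ hx)
      exact ⟨x, rfl, b, hb, hbx.symm⟩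
  have h1 : a = b := eq_of_forall hc hab
  have h2 : a = x := ha
  rw [← h2, h1]
  exact hb

lemma compacts_eq (hc : IsThreads c) {K L : Compacts c.pt}
    (h : ∀ j, K.map (pr c j) (continuous_hom _) = L.map (pr c j) (continuous_hom _)) :
    K = L := by
  have h' : ∀ j, (pr c j) '' (K : Set c.pt) = (pr c j) '' (L : Set c.pt) := fun j =>
    congrArg (fun M : Compacts (D.obj j) => (M : Set (D.obj j))) (h j)
  refine Compacts.ext (Subset.antisymm ?_ ?_)
  · exact subset_of_forall hc fun j => (h' j).subset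
  · exact subset_of_forall hc fun j => (h' j).superset

lemma exists_compacts (hc : IsThreads c) (s : (j : Jᵒᵖ) → Compacts (D.obj j))
    (hs : ∀ ⦃i j : Jᵒᵖ⦄ (f : i ⟶ j), (s i).map (D.map f) (continuous_hom _) = s j) :
    ∃ K : Compacts c.pt, ∀ j, K.map (pr c j) (continuous_hom _) = s j := by
  have hs' : ∀ ⦃i j : Jᵒᵖ⦄ (f : i ⟶ j), D.map f '' (s i : Set (D.obj i)) = s j := fun i j f =>
    congrArg (fun M : Compacts (D.obj j) => (M : Set (D.obj j))) (hs f)
  have hcl : IsClosed (⋂ j, (pr c j) ⁻¹' (s j : Set (D.obj j))) :=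
    isClosed_iInter fun j => (s j).isCompact.isClosed.preimage (continuous_hom (pr c j))
  refine ⟨⟨⋂ j, (pr c j) ⁻¹' (s j : Set (D.obj j)), hcl.isCompact⟩, fun j => ?_⟩
  refine Compacts.ext (Subset.antisymm ?_ ?_)
  · rintro _ ⟨x, hx, rfl⟩
    exact (mem_iInter.1 hx) j
  · intro a ha
    have hne : ∀ i, (s i : Set (D.obj i)).Nonempty := by
      intro i
      obtain ⟨k, ⟨f⟩, ⟨g⟩⟩ := exists_above i j
      rw [← hs' f]
      rw [← hs' g] at ha
      obtain ⟨b, hb, -⟩ := ha
      exact ⟨_, mem_image_of_mem _ hb⟩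
    obtain ⟨t, ht1, ht2⟩ := exists_thread D
      (fun i => (s i : Set (D.obj i)) ∩ ⋂ f : i ⟶ j, (D.map f) ⁻¹' {a})
      (fun i => (s i).isCompact.isClosed.inter
        (isClosed_iInter fun f => (isClosed_pt a).preimage (continuous_hom (D.map f))))
      (fun i => by
        by_cases h : Nonempty (i ⟶ j)
        · obtain ⟨f⟩ := h
          have ha' := ha
          rw [← hs' f] at ha'
          obtain ⟨b, hb, hba⟩ := ha'
          refine ⟨b, hb, mem_iInter.2 fun g => ?_⟩
          have : g = f := Subsingleton.elim _ _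
          rw [this]
          exact hba
        · obtain ⟨b, hb⟩ := hne i
          exact ⟨b, hb, mem_iInter.2 fun f => absurd ⟨f⟩ h⟩)
      (by
        rintro i i' f x ⟨hx1, hx2⟩
        refine ⟨?_, mem_iInter.2 fun g => ?_⟩
        · rw [← hs' f]
          exact mem_image_of_mem _ hx1
        · have h1 := mem_iInter.1 hx2 (f ≫ g)
          rw [D.map_comp] at h1
          exact h1)
    obtain ⟨x, hx, -⟩ := hc t ht1
    refine ⟨x, mem_iInter.2 fun i => ?_, ?_⟩
    · show pr c i x ∈ s i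
      rw [hx i]
      exact (ht2 i).1
    · have h1 := mem_iInter.1 (ht2 j).2 (𝟙 j)
      rw [D.map_id] at h1
      rw [hx j]
      exact h1

/-- The functor `exp X × X × X`. -/
def G : CompHaus.{u} ⥤ CompHaus.{u} where
  obj X := CompHaus.of (Compacts X × X × X)
  map {X Y} f := CompHausLike.ofHom _ ⟨gmap f (continuous_hom f), continuous_gmap _ _⟩
  map_id X := by
    refine ConcreteCategory.hom_ext _ _ fun p => ?_
    show ((p.1.map id continuous_id, p.2.1, p.2.2) : Compacts X × X × X) = p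
    rw [Compacts.map_id]
  map_comp {X Y Z} f g := by
    refine ConcreteCategory.hom_ext _ _ fun p => ?_
    show ((p.1.map (g ∘ f) ((continuous_hom g).comp (continuous_hom f)),
        g (f p.2.1), g (f p.2.2)) : Compacts Z × Z × Z) =
      ((p.1.map f (continuous_hom f)).map g (continuous_hom g), g (f p.2.1), g (f p.2.2))
    rw [Compacts.map_comp]

lemma isClosed_fiber {X : CompHaus.{u}} (x : E.obj X) :
    IsClosed {p : Compacts X × X × X | mk p = x} := by
  have h1 : IsClosed ({x} : Set (Quotient (stp X))) := isClosed_pt (X := E.obj X) x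
  exact h1.preimage continuous_quotient_mk'

lemma exists_lift (s : (j : Jᵒᵖ) → E.obj (D.obj j))
    (hs : ∀ ⦃i j : Jᵒᵖ⦄ (f : i ⟶ j), E.map (D.map f) (s i) = s j) :
    ∃ p : (j : Jᵒᵖ) → Compacts (D.obj j) × (D.obj j) × (D.obj j),
      (∀ ⦃i j : Jᵒᵖ⦄ (f : i ⟶ j), gmap (D.map f) (continuous_hom _) (p i) = p j) ∧
        ∀ j, mk (p j) = s j := by
  obtain ⟨t, ht1, ht2⟩ := exists_thread (D ⋙ G) (fun j => {p | mk p = s j})
    (fun j => isClosed_fiber _) (fun j => exists_mk _) (by
      intro i j f x hx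
      have hx' : mk x = s i := hx
      show mk (gmap (D.map f) (continuous_hom _) x) = s j
      rw [← hs f, ← hx', map_mk])
  exact ⟨t, ht1, ht2⟩

lemma exists_point (hc : IsThreads c) (s : (j : Jᵒᵖ) → E.obj (D.obj j))
    (hs : ∀ ⦃i j : Jᵒᵖ⦄ (f : i ⟶ j), E.map (D.map f) (s i) = s j) :
    ∃ x : E.obj c.pt, ∀ j, E.map (pr c j) x = s j := by
  obtain ⟨p, hp1, hp2⟩ := exists_lift s hs
  obtain ⟨K, hK⟩ := exists_compacts hc (fun j => (p j).1) fun i j f => congrArg Prod.fst (hp1 f)
  obtain ⟨x1, hx1, -⟩ := hc (fun j => (p j).2.1) fun i j f =>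
    congrArg (fun q => q.2.1) (hp1 f)
  obtain ⟨x2, hx2, -⟩ := hc (fun j => (p j).2.2) fun i j f =>
    congrArg (fun q => q.2.2) (hp1 f)
  refine ⟨mk (K, x1, x2), fun j => ?_⟩
  rw [← hp2 j, map_mk]
  have h1 : gmap (pr c j) (continuous_hom (pr c j)) (K, x1, x2) = p j :=
    Prod.ext (hK j) (Prod.ext (hx1 j) (hx2 j))
  rw [h1]

lemma preconnected_of_forall (hc : IsThreads c) (K : Compacts c.pt)
    (h : ∀ j, _root_.IsPreconnected (pr c j '' (K : Set c.pt))) :
    _root_.IsPreconnected (K : Set c.pt) := by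
  by_contra hcon
  obtain ⟨A, B, hA, hB, hAn, hBn, hAB, hKAB⟩ := exists_compact_partition K.isCompact hcon
  obtain ⟨a, ha, b, hb, hab⟩ := exists_common (c := c) A B hA.isClosed hB.isClosed fun j => by
    have h1 : IsClosed (pr c j '' A) := (hA.image (continuous_hom _)).isClosed
    have h2 : IsClosed (pr c j '' B) := (hB.image (continuous_hom _)).isClosed
    have h3 := (isPreconnected_closed_iff.1 (h j)) _ _ h1 h2
      (by rw [hKAB, image_union])
      (by
        obtain ⟨a, ha⟩ := hAn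
        exact ⟨pr c j a, mem_image_of_mem _ (by rw [hKAB]; exact Or.inl ha), mem_image_of_mem _ ha⟩)
      (by
        obtain ⟨a, ha⟩ := hBn
        exact ⟨pr c j a, mem_image_of_mem _ (by rw [hKAB]; exact Or.inr ha), mem_image_of_mem _ ha⟩)
    obtain ⟨y, -, ⟨a, ha, rfl⟩, ⟨b, hb, hab⟩⟩ := h3
    exact ⟨a, ha, b, hb, hab.symm⟩
  have h1 : a = b := eq_of_forall hc hab
  rw [h1] at ha
  exact Set.disjoint_left.1 hAB ha hb

lemma rel_of_forall (hc : IsThreads c) (p q : Compacts c.pt × c.pt × c.pt)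
    (h : ∀ j, rel (gmap (pr c j) (continuous_hom _) p) (gmap (pr c j) (continuous_hom _) q)) :
    rel p q := by
  refine ⟨compacts_eq hc fun j => (h j).1, ?_⟩
  by_contra hcon
  push Not at hcon
  obtain ⟨h1, h2, h3⟩ := hcon
  obtain ⟨a, ha, b, hb, hab⟩ := h2
  obtain ⟨j0, hj0⟩ := exists_ne hc hab
  -- a level above which `p.2` and `q.2` differ
  have h4 : ∃ j1, ∀ k, Nonempty (k ⟶ j1) →
      (gmap (pr c k) (continuous_hom _) p).2 ≠ (gmap (pr c k) (continuous_hom _) q).2 := by
    by_cases hx : p.2.1 = q.2.1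
    · have hy : p.2.2 ≠ q.2.2 := fun hy => h1 (Prod.ext hx hy)
      obtain ⟨j1, hj1⟩ := exists_ne hc hy
      exact ⟨j1, fun k hk hkk => hj1 k hk (congrArg Prod.snd hkk)⟩
    · obtain ⟨j1, hj1⟩ := exists_ne hc hx
      exact ⟨j1, fun k hk hkk => hj1 k hk (congrArg Prod.fst hkk)⟩
  obtain ⟨j1, hj1⟩ := h4
  obtain ⟨k0, ⟨f0⟩, ⟨f1⟩⟩ := exists_above j0 j1
  have h5 : ∀ j, ∃ k, Nonempty (k ⟶ j) ∧
      _root_.IsPreconnected (pr c k '' (p.1 : Set c.pt)) ∧ pr c k p.2.1 = pr c k p.2.2 ∧
        pr c k q.2.1 = pr c k q.2.2 := by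
    intro j
    obtain ⟨k, ⟨f⟩, ⟨g⟩⟩ := exists_above k0 j
    refine ⟨k, ⟨g⟩, ?_⟩
    obtain ⟨-, h | h | h⟩ := h k
    · exact absurd h (hj1 k ⟨f ≫ f1⟩)
    · exact absurd (h (mem_image_of_mem _ ha) (mem_image_of_mem _ hb)) (hj0 k ⟨f ≫ f0⟩)
    · exact h
  refine h3 (preconnected_of_forall hc _ fun j => ?_) (eq_of_forall hc fun j => ?_)
    (eq_of_forall hc fun j => ?_)
  · obtain ⟨k, ⟨f⟩, hk, -, -⟩ := h5 j
    have h6 : pr c j '' (p.1 : Set c.pt) = D.map f '' (pr c k '' (p.1 : Set c.pt)) := by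
      rw [image_image]
      exact image_congr fun x _ => (cone_map f x).symm
    rw [h6]
    exact hk.image _ (continuous_hom _).continuousOn
  · obtain ⟨k, ⟨f⟩, -, hk, -⟩ := h5 j
    show pr c j p.2.1 = pr c j p.2.2
    rw [← cone_map f, ← cone_map f, hk]
  · obtain ⟨k, ⟨f⟩, -, -, hk⟩ := h5 j
    show pr c j q.2.1 = pr c j q.2.2
    rw [← cone_map f, ← cone_map f, hk]

end cont

lemma continuousFunctor : ContinuousFunctor E.{u} := by
  refine continuousFunctor_of _ fun J _ _ _ D c hc s hs => ?_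
  obtain ⟨x, hx⟩ := exists_point (c := c) hc s hs
  refine ⟨x, hx, fun y hy => ?_⟩
  obtain ⟨p, rfl⟩ := exists_mk x
  obtain ⟨q, rfl⟩ := exists_mk y
  rw [mk_eq]
  refine rel_of_forall (c := c) hc _ _ fun j => ?_
  rw [← mk_eq, ← map_mk, ← map_mk, hx j]
  exact hy j

/-! ### 1-preimages -/

lemma finite_preimages : PreservesFiniteOnePreimages E.{u} := by
  intro X' Y' X Y f' f pX pY hfin hpX hf' hf hsq
  have hcomm : ∀ x, E.map f (E.map pX x) = E.map pY (E.map f' x) := by
    intro x
    have h1 : pX ≫ f = f' ≫ pY := by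
      ext x
      exact hsq.1 x
    have h2 : (E.map (pX ≫ f)) x = (E.map (f' ≫ pY)) x := by rw [h1]
    rw [E.map_comp, E.map_comp] at h2
    exact h2
  refine ⟨hcomm, fun a => ?_⟩
  ext b
  constructor
  · rintro ⟨a', ha', rfl⟩
    have h1 : E.map pX a' = a := ha'
    show E.map pY (E.map f' a') = E.map f a
    rw [← hcomm, h1]
  · intro hb
    have hb' : E.map pY b = E.map f a := hb
    suffices h : ∃ a', E.map f' a' = b by
      obtain ⟨a', rfl⟩ := h
      refine ⟨a', ?_, rfl⟩
      exact monomorphic f hf (by rw [hcomm]; exact hb')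
    -- points of `Y'` over `f X`
    have key : ∀ y x, pY y = f x → ∃ x', f' x' = y ∧ pX x' = x := by
      intro y x hyx
      have h1 : y ∈ pY ⁻¹' {f x} := hyx
      rw [← hsq.2 x] at h1
      obtain ⟨x', hx', hx'y⟩ := h1
      exact ⟨x', hx'y, hx'⟩
    obtain ⟨⟨K, y1, y2⟩, rfl⟩ := exists_mk b
    obtain ⟨⟨L, x1, x2⟩, rfl⟩ := exists_mk a
    rw [map_mk, map_mk, mk_eq] at hb'
    obtain ⟨hKL, h2⟩ := hb'
    have hKL' : pY '' (K : Set Y') = f '' (L : Set X) :=
      congrArg (fun M : Compacts Y => (M : Set Y)) hKL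
    have hKr : (K : Set Y') ⊆ range f' := by
      intro y hy
      have h1 : pY y ∈ f '' (L : Set X) := by
        rw [← hKL']
        exact mem_image_of_mem _ hy
      obtain ⟨x, -, hx⟩ := h1
      obtain ⟨x', hx', -⟩ := key y x hx.symm
      exact ⟨x', hx'⟩
    have hsub : (pY '' (K : Set Y')).Subsingleton → ∃ a', E.map f' a' = mk (K, y1, y2) := by
      intro hs
      obtain ⟨u0, -⟩ := hpX.2 x1
      refine ⟨mk (comapc f' K, u0, u0), ?_⟩
      rw [map_mk, mk_eq]
      refine ⟨map_comapc f' K hKr, Or.inr (Or.inl ?_)⟩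
      show ((comapc f' K).map f' (continuous_hom f') : Set Y').Subsingleton
      rw [map_comapc f' K hKr]
      intro y hy y' hy'
      have h1 : pY y = pY y' := hs (mem_image_of_mem _ hy) (mem_image_of_mem _ hy')
      have h3 : pY y ∈ f '' (L : Set X) := by
        rw [← hKL']
        exact mem_image_of_mem _ hy
      obtain ⟨x, -, hx⟩ := h3
      obtain ⟨u, rfl, hu⟩ := key y x hx.symm
      obtain ⟨v, rfl, hv⟩ := key y' x (by rw [← h1, hx])
      rw [hpX.1 (hu.trans hv.symm)]
    rcases h2 with h | h | ⟨h, -, -⟩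
    · have h' : (pY y1, pY y2) = (f x1, f x2) := h
      rw [Prod.mk.injEq] at h'
      obtain ⟨u1, rfl, -⟩ := key y1 x1 h'.1
      obtain ⟨u2, rfl, -⟩ := key y2 x2 h'.2
      refine ⟨mk (comapc f' K, u1, u2), ?_⟩
      rw [map_mk]
      show mk ((comapc f' K).map f' _, f' u1, f' u2) = _
      rw [map_comapc f' K hKr]
    · exact hsub h
    · refine hsub ?_
      have h1 : _root_.IsPreconnected (pY '' (K : Set Y')) := h
      rw [hKL'] at h1 ⊢
      have h3 : _root_.IsPreconnected (L : Set X) :=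
        (isClosedEmbedding f hf).isInducing.isPreconnected_image.1 h1
      exact h3.subsingleton.image _

/-- The unit interval in the universe `u`. -/
def I : CompHaus.{u} := CompHaus.of (ULift.{u} unitInterval)

lemma not_preimages : ¬ PreservesOnePreimages E.{u} := by
  intro hP
  let Y' : CompHaus.{u} := CompHaus.of (ULift.{u} unitInterval ⊕ ULift.{u} Bool)
  let Y : CompHaus.{u} := CompHaus.of (ULift.{u} unitInterval ⊕ PUnit.{u + 1})
  let f' : I.{u} ⟶ Y' := CompHausLike.ofHom _ ⟨Sum.inl, continuous_inl⟩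
  let f : I.{u} ⟶ Y := CompHausLike.ofHom _ ⟨Sum.inl, continuous_inl⟩
  let pY : Y' ⟶ Y := CompHausLike.ofHom _ ⟨Sum.map id (fun _ => PUnit.unit), by fun_prop⟩
  have hsq : Bicommutative f' f (𝟙 I.{u}) pY := by
    refine ⟨fun x => rfl, fun x => ?_⟩
    ext y
    constructor
    · rintro ⟨x', hx', rfl⟩
      have h1 : x' = x := hx'
      rw [h1]
      rfl
    · intro hy
      rcases y with y | y
      · have h1 : (Sum.inl y : ULift.{u} unitInterval ⊕ PUnit.{u + 1}) = Sum.inl x := hy
        have h2 : y = x := Sum.inl.inj h1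
        exact ⟨y, h2, rfl⟩
      · have h1 : (Sum.inr PUnit.unit : ULift.{u} unitInterval ⊕ PUnit.{u + 1}) = Sum.inl x := hy
        cases h1
  have h := hP f' f (𝟙 I.{u}) pY Function.bijective_id Sum.inl_injective Sum.inl_injective hsq
  let K : Compacts (ULift.{u} unitInterval) := ⊤
  let K' : Compacts Y' := K.map f' (continuous_hom f')
  let b : E.obj Y' := mk (K', Sum.inr ⟨false⟩, Sum.inr ⟨true⟩)
  let a : E.obj I.{u} := mk (K, ⟨0⟩, ⟨0⟩)
  have hba : b ∈ E.map pY ⁻¹' {E.map f a} := by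
    show E.map pY b = E.map f a
    rw [map_mk, map_mk, mk_eq]
    refine ⟨?_, Or.inr (Or.inr ⟨?_, rfl, rfl⟩)⟩
    · refine Compacts.ext ?_
      show pY '' (f' '' (K : Set (ULift.{u} unitInterval))) = f '' (K : Set (ULift.{u} unitInterval))
      rw [image_image]
      rfl
    · show _root_.IsPreconnected (pY '' (f' '' (K : Set (ULift.{u} unitInterval))))
      have h1 : _root_.IsPreconnected (K : Set (ULift.{u} unitInterval)) := by
        have h2 := (isPreconnected_univ (α := unitInterval)).image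
          (ULift.up : unitInterval → ULift.{u} unitInterval) continuous_uliftUp.continuousOn
        rw [image_univ, ULift.up_surjective.range_eq] at h2
        exact h2
      exact (h1.image _ (continuous_hom f').continuousOn).image _ (continuous_hom pY).continuousOn
  rw [← h.2 a] at hba
  obtain ⟨a', -, ha'⟩ := hba
  obtain ⟨⟨L, x1, x2⟩, rfl⟩ := exists_mk a'
  rw [map_mk, mk_eq] at ha'
  obtain ⟨h1, h2 | h2 | ⟨-, -, h2⟩⟩ := ha'
  · have h3 : (Sum.inl x1 : ULift.{u} unitInterval ⊕ ULift.{u} Bool) = Sum.inr ⟨false⟩ :=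
      congrArg Prod.fst h2
    cases h3
  · rw [h1] at h2
    have h3 : (Sum.inl ⟨0⟩ : ULift.{u} unitInterval ⊕ ULift.{u} Bool) = Sum.inl ⟨1⟩ :=
      h2 (mem_image_of_mem f' (mem_univ (⟨0⟩ : ULift.{u} unitInterval)))
        (mem_image_of_mem f' (mem_univ (⟨1⟩ : ULift.{u} unitInterval)))
    have h4 := congrArg ULift.down (Sum.inl.inj h3)
    exact zero_ne_one h4
  · have h3 : (Sum.inr ⟨false⟩ : ULift.{u} unitInterval ⊕ ULift.{u} Bool) = Sum.inr ⟨true⟩ := h2
    have h4 := congrArg ULift.down (Sum.inr.inj h3)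
    exact Bool.false_ne_true h4

/-- **There is a mec functor in the category of compacta that preserves finite 1-preimages but does
not preserve 1-preimages.** -/
theorem result : ∃ F : CompHaus.{u} ⥤ CompHaus.{u}, Monomorphic F ∧ Epimorphic F ∧
    ContinuousFunctor F ∧ PreservesFiniteOnePreimages F ∧ ¬ PreservesOnePreimages F :=
  ⟨E, monomorphic, epimorphic, continuousFunctor, finite_preimages, not_preimages⟩

end Pool.Agent.Results.MP_6bfe6b_gt.OnePreimages
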